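import Pool.Agent.W759.FD.Defs

namespace Pool.Agent.W358.FD

open MeasureTheory ProbabilityTheory Set Filter
open scoped ENNReal Topology
open Pool.Agent.W759.FD

universe u

theorem t5 : P5.{u} := by
  intro T _ lam _ B n hB hn
  have : IsProbabilityMeasure (iid lam) := by unfold iid; infer_instance
  have hsm : ∀ a : ℤ, Measurable (sh a : (ℤ → T) → (ℤ → T)) := by
    intro a
    exact measurable_pi_lambda _ (fun i => measurable_pi_apply _)
  have hmap : ∀ a : ℤ, (iid lam).map (sh a) = iid lam := by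
    intro a
    unfold iid
    exact Measure.map_infinitePi_infinitePi_of_inj (P := fun _ : ℤ => lam)
      (f := fun i : ℤ => i + a) (fun x y h => by simpa using h)
  have hpre : ∀ a : ℤ, iid lam (sh a ⁻¹' B) = iid lam B := by
    intro a
    rw [← Measure.map_apply (hsm a) hB, hmap a]
  have hcompl : {y : ℤ → T | ∀ a : ℕ, a < n → sh (a : ℤ) y ∉ B} =
      (⋃ a ∈ Finset.range n, sh (a : ℤ) ⁻¹' B)ᶜ := by
    ext y
    simp
  have hUm : MeasurableSet (⋃ a ∈ Finset.range n, (sh (a : ℤ) : (ℤ → T) → (ℤ → T)) ⁻¹' B) :=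
    Finset.measurableSet_biUnion _ (fun a _ => hsm a hB)
  have hle : iid lam (⋃ a ∈ Finset.range n, (sh (a : ℤ) : (ℤ → T) → (ℤ → T)) ⁻¹' B) ≤
      (n : ℝ≥0∞) * iid lam B := by
    refine (measure_biUnion_finset_le _ _).trans ?_
    simp only [hpre, Finset.sum_const, Finset.card_range, nsmul_eq_mul]
    exact le_rfl
  rw [hcompl, prob_compl_eq_one_sub hUm]
  exact tsub_pos_of_lt (hle.trans_lt hn)

end Pool.Agent.W358.FD
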